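import Pool.Agent.W192.CY.Stm

set_option autoImplicit false

open Complex Filter Topology Set

namespace Pool.Agent.W19.CY

open Pool.Agent.W192.CY

/-- the size condition on `q` -/
theorem ev_small (A B a b : ℝ) (ha : 0 < a) (hb : 0 < b) :
    ∃ q0 : ℝ, ∀ x : ℝ, q0 ≤ x → A * x ^ (-a) + B * x ^ (-b) < 1 := by
  have h1 : Tendsto (fun x : ℝ => A * x ^ (-a) + B * x ^ (-b)) atTop (𝓝 (A * 0 + B * 0)) :=
    ((tendsto_rpow_neg_atTop ha).const_mul A).add ((tendsto_rpow_neg_atTop hb).const_mul B)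
  have h2 : A * 0 + B * 0 < (1 : ℝ) := by norm_num
  exact eventually_atTop.1 (h1.eventually_lt_const h2)

theorem mem_Ex (q d : ℕ) [NeZero q] (χ : DirichletCharacter ℂ q) :
    χ ∈ Ex q d ↔ orderOf χ = d := by
  unfold Ex
  rw [Set.Finite.mem_toFinset]
  rfl

theorem t_FINN (h1 : S_COEF) (h2 : S_DIV) (h3 : S_MOB) (h4 : S_MAINP) (h5 : S_DUALP) :
    S_FINN := by
  intro N hN c w hC hw ε hε
  rcases le_or_gt (1 / 4) ε with hbig | hsmall
  · refine ⟨0, fun q _ _ _ L _ d hd hle => ?_⟩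
    exfalso
    have hq : q.Prime := Fact.out
    have hq1 : (1 : ℝ) ≤ q := by exact_mod_cast hq.one_lt.le
    have hdq : d ≤ q - 1 := Nat.le_of_dvd (Nat.sub_pos_of_lt hq.one_lt) hd
    have hdq' : d < q := lt_of_le_of_lt hdq (Nat.sub_lt hq.pos one_pos)
    have h : (q : ℝ) ^ (1 : ℝ) ≤ (q : ℝ) ^ (3 / 4 + ε) :=
      Real.rpow_le_rpow_of_exponent_le hq1 (by linarith)
    rw [Real.rpow_one] at h
    have : (d : ℝ) < q := by exact_mod_cast hdq'
    linarith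
  obtain ⟨m, hm⟩ := h1 N c hC
  obtain ⟨δ1, C1, q1, hδ1, hC1, H1⟩ := h4 c m hC.one hm ε hε hsmall
  obtain ⟨δ2, C2, q2, hδ2, hC2, H2⟩ := h5 N hN c m hm ε hε hsmall
  obtain ⟨C3, hC3, H3, -⟩ := h2 (1 / 2) (by norm_num)
  set δ := min δ1 δ2 with hδdef
  have hδ : 0 < δ := lt_min hδ1 hδ2
  obtain ⟨C4, hC4, -, H4⟩ := h2 (δ / 2) (by linarith)
  obtain ⟨q3, H5⟩ := ev_small ((C1 + C2) * C4) C3 (δ / 2) (ε / 2) (by linarith) (by linarith)
  refine ⟨max (max q1 q2) q3, fun q _ hq0 hqN L hL d hd hle => ?_⟩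
  have hq : q.Prime := Fact.out
  have hq2 : (2 : ℝ) ≤ q := by exact_mod_cast hq.two_le
  have hqpos : (0 : ℝ) < q := by linarith
  have hq1 : (1 : ℝ) ≤ q := by linarith
  have hqa : q1 ≤ q := le_trans (le_trans (le_max_left _ _) (le_max_left _ _)) hq0
  have hqb : q2 ≤ q := le_trans (le_trans (le_max_right _ _) (le_max_left _ _)) hq0
  have hqc : q3 ≤ q := le_trans (le_max_right _ _) hq0
  have hdle : d ≤ q - 1 := Nat.le_of_dvd (Nat.sub_pos_of_lt hq.one_lt) hd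
  have hdq : (d : ℝ) ≤ q := by exact_mod_cast le_trans hdle (Nat.sub_le _ _)
  have hd1 : (1 : ℝ) < d := by
    refine lt_of_lt_of_le ?_ hle
    exact Real.one_lt_rpow (by linarith) (by linarith)
  have hd1' : 1 < d := by exact_mod_cast hd1
  have hdpos : (0 : ℝ) < d := by linarith
  by_contra hcon
  push Not at hcon
  have hLs : ∀ χ ∈ Ex q d, ‖L χ‖ ≤ (q : ℝ) ^ (-ε) := fun χ hχ =>
    (hcon χ ((mem_Ex q d χ).1 hχ)).le
  -- sizes
  set B := ⌊(q : ℝ) ^ (ε / 2)⌋₊ with hB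
  have hBle : (B : ℝ) ≤ (q : ℝ) ^ (ε / 2) := Nat.floor_le (by positivity)
  set X := (q : ℝ) ^ (3 / 2 : ℝ) with hX
  set Y := (N : ℝ) * Real.sqrt q / (4 * Real.pi ^ 2) with hY
  have hNpos : (0 : ℝ) < N := by exact_mod_cast hN
  have hXpos : 0 < X := by positivity
  have hYpos : 0 < Y := by positivity
  have hXY : X * Y = N * (q : ℝ) ^ 2 / (4 * Real.pi ^ 2) := by
    have : (q : ℝ) ^ (3 / 2 : ℝ) * Real.sqrt q = (q : ℝ) ^ 2 := by
      rw [Real.sqrt_eq_rpow, ← Real.rpow_add hqpos, ← Real.rpow_natCast]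
      norm_num
    rw [hX, hY, ← this]
    ring
  have hL' : ∀ χ ∈ Ex q d, L χ = ∑' n : ℕ, χ (n : ZMod q) * (c n : ℂ) / n *
      (Real.exp (-(n / X)) : ℂ) +
        w * χ (N : ZMod q) * gaussSum χ (ZMod.stdAddChar (N := q)) ^ 2 / q *
          ∑' n : ℕ, (starRingEnd ℂ) (χ (n : ZMod q)) * (c n : ℂ) / n *
          (Real.exp (-(n / Y)) : ℂ) := by
    intro χ hχ
    refine hL χ ?_ X Y hXpos hYpos hXY
    rintro rfl
    have := (mem_Ex q d 1).1 hχ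
    rw [orderOf_one] at this
    omega
  -- the two parts
  have hM := H1 q hqa d hd hle
  have hD := H2 q hqb hqN d hd hle
  set M := ∑ b ∈ Finset.Icc 1 B, ((m b / b : ℝ) : ℂ) * ∑ χ ∈ Ex q d,
      χ (b : ZMod q) * (∑' n : ℕ, χ (n : ZMod q) * (c n : ℂ) / n *
        (Real.exp (-(n / X)) : ℂ)) with hMdef
  set D := ∑ b ∈ Finset.Icc 1 B, ((m b / b : ℝ) : ℂ) * ∑ χ ∈ Ex q d,
      χ (b : ZMod q) * (χ (N : ZMod q) * gaussSum χ (ZMod.stdAddChar (N := q)) ^ 2 / q *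
        ∑' n : ℕ, (starRingEnd ℂ) (χ (n : ZMod q)) * (c n : ℂ) / n *
        (Real.exp (-(n / Y)) : ℂ)) with hDdef
  have hTot : ∑ b ∈ Finset.Icc 1 B, ((m b / b : ℝ) : ℂ) * ∑ χ ∈ Ex q d,
      χ (b : ZMod q) * L χ = M + w * D := by
    rw [hMdef, hDdef, Finset.mul_sum, ← Finset.sum_add_distrib]
    refine Finset.sum_congr rfl fun b _ => ?_
    rw [mul_left_comm w, ← mul_add]
    congr 1
    rw [Finset.mul_sum, ← Finset.sum_add_distrib]
    refine Finset.sum_congr rfl fun χ hχ => ?_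
    rw [hL' χ hχ]
    ring
  have hφpos : (0 : ℝ) < Nat.totient d := by
    exact_mod_cast Nat.totient_pos.2 (by omega)
  have hcard : (Ex q d).card = Nat.totient d := (h3 q d hd).1
  -- upper bound
  have hmb : ∀ b ∈ Finset.Icc 1 B, ‖((m b / b : ℝ) : ℂ)‖ ≤ C3 := by
    intro b hb
    have hb1 : 1 ≤ b := (Finset.mem_Icc.1 hb).1
    have hbpos : (0 : ℝ) < b := by exact_mod_cast hb1
    rw [Complex.norm_real, Real.norm_eq_abs, abs_div, abs_of_pos hbpos, div_le_iff₀ hbpos]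
    have e1 := hm.mle b hb1
    have e2 := H3 b hb1
    rw [← Real.sqrt_eq_rpow] at e2
    calc |m b| ≤ b.divisors.card * Real.sqrt b := e1
      _ ≤ (C3 * Real.sqrt b) * Real.sqrt b := by gcongr
      _ = C3 * b := by rw [mul_assoc, Real.mul_self_sqrt hbpos.le]
  have hupper : ‖M + w * D‖ ≤ C3 * (Nat.totient d) * (q : ℝ) ^ (-(ε / 2)) := by
    rw [← hTot]
    calc ‖∑ b ∈ Finset.Icc 1 B, ((m b / b : ℝ) : ℂ) * ∑ χ ∈ Ex q d, χ (b : ZMod q) * L χ‖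
        ≤ ∑ b ∈ Finset.Icc 1 B, ‖((m b / b : ℝ) : ℂ) * ∑ χ ∈ Ex q d, χ (b : ZMod q) * L χ‖ :=
          norm_sum_le _ _
      _ ≤ ∑ b ∈ Finset.Icc 1 B, C3 * (Nat.totient d * (q : ℝ) ^ (-ε)) := by
          refine Finset.sum_le_sum fun b hb => ?_
          rw [norm_mul]
          refine mul_le_mul (hmb b hb) ?_ (norm_nonneg _) hC3.le
          calc ‖∑ χ ∈ Ex q d, χ (b : ZMod q) * L χ‖
              ≤ ∑ χ ∈ Ex q d, ‖χ (b : ZMod q) * L χ‖ := norm_sum_le _ _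
            _ ≤ ∑ χ ∈ Ex q d, (q : ℝ) ^ (-ε) := by
                refine Finset.sum_le_sum fun χ hχ => ?_
                rw [norm_mul]
                calc ‖χ (b : ZMod q)‖ * ‖L χ‖ ≤ 1 * (q : ℝ) ^ (-ε) :=
                      mul_le_mul (DirichletCharacter.norm_le_one χ _) (hLs χ hχ)
                        (norm_nonneg _) zero_le_one
                  _ = _ := one_mul _
            _ = Nat.totient d * (q : ℝ) ^ (-ε) := by
                rw [Finset.sum_const, nsmul_eq_mul, hcard]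
      _ = (B : ℝ) * (C3 * (Nat.totient d * (q : ℝ) ^ (-ε))) := by
          rw [Finset.sum_const, nsmul_eq_mul, Nat.card_Icc]
          simp
      _ ≤ (q : ℝ) ^ (ε / 2) * (C3 * (Nat.totient d * (q : ℝ) ^ (-ε))) := by
          gcongr
      _ = C3 * (Nat.totient d) * ((q : ℝ) ^ (ε / 2) * (q : ℝ) ^ (-ε)) := by ring
      _ = C3 * (Nat.totient d) * (q : ℝ) ^ (-(ε / 2)) := by
          rw [← Real.rpow_add hqpos]
          congr 2
          ring
  -- lower bound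
  have hlow : (Nat.totient d : ℝ) ≤ ‖M + w * D‖ + C1 * d * (q : ℝ) ^ (-δ1) +
      C2 * d * (q : ℝ) ^ (-δ2) := by
    have e1 : ((Nat.totient d : ℕ) : ℂ) = (M + w * D) - (M - (Nat.totient d : ℂ)) - w * D := by
      ring
    calc (Nat.totient d : ℝ) = ‖((Nat.totient d : ℕ) : ℂ)‖ := by simp
      _ = ‖(M + w * D) - (M - (Nat.totient d : ℂ)) - w * D‖ := by rw [← e1]
      _ ≤ ‖(M + w * D) - (M - (Nat.totient d : ℂ))‖ + ‖w * D‖ := norm_sub_le _ _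
      _ ≤ ‖M + w * D‖ + ‖M - (Nat.totient d : ℂ)‖ + ‖w * D‖ := by
          gcongr
          exact norm_sub_le _ _
      _ ≤ _ := by
          rw [norm_mul, hw, one_mul]
          gcongr
  have hq1' : (q : ℝ) ^ (-δ1) ≤ (q : ℝ) ^ (-δ) :=
    Real.rpow_le_rpow_of_exponent_le hq1 (neg_le_neg (min_le_left _ _))
  have hq2' : (q : ℝ) ^ (-δ2) ≤ (q : ℝ) ^ (-δ) :=
    Real.rpow_le_rpow_of_exponent_le hq1 (neg_le_neg (min_le_right _ _))
  have hφ := H4 d (by omega)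
  have hdφ : (d : ℝ) * (q : ℝ) ^ (-δ) ≤ C4 * Nat.totient d * (q : ℝ) ^ (-(δ / 2)) := by
    have e1 : (d : ℝ) = (d : ℝ) ^ (1 - δ / 2) * (d : ℝ) ^ (δ / 2) := by
      rw [← Real.rpow_add hdpos]
      simp
    have e2 : (d : ℝ) ^ (δ / 2) ≤ (q : ℝ) ^ (δ / 2) :=
      Real.rpow_le_rpow hdpos.le hdq (by linarith)
    calc (d : ℝ) * (q : ℝ) ^ (-δ)
        = (d : ℝ) ^ (1 - δ / 2) * (d : ℝ) ^ (δ / 2) * (q : ℝ) ^ (-δ) := by rw [← e1]
      _ ≤ (C4 * Nat.totient d) * (q : ℝ) ^ (δ / 2) * (q : ℝ) ^ (-δ) := by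
          gcongr
      _ = C4 * Nat.totient d * ((q : ℝ) ^ (δ / 2) * (q : ℝ) ^ (-δ)) := by ring
      _ = C4 * Nat.totient d * (q : ℝ) ^ (-(δ / 2)) := by
          rw [← Real.rpow_add hqpos]
          congr 2
          ring
  have hfin := H5 q hqc
  have key : (Nat.totient d : ℝ) ≤ Nat.totient d *
      ((C1 + C2) * C4 * (q : ℝ) ^ (-(δ / 2)) + C3 * (q : ℝ) ^ (-(ε / 2))) := by
    calc (Nat.totient d : ℝ) ≤ ‖M + w * D‖ + C1 * d * (q : ℝ) ^ (-δ1) +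
          C2 * d * (q : ℝ) ^ (-δ2) := hlow
      _ ≤ C3 * (Nat.totient d) * (q : ℝ) ^ (-(ε / 2)) + C1 * d * (q : ℝ) ^ (-δ) +
          C2 * d * (q : ℝ) ^ (-δ) := by gcongr
      _ = C3 * (Nat.totient d) * (q : ℝ) ^ (-(ε / 2)) + (C1 + C2) * (d * (q : ℝ) ^ (-δ)) := by
          ring
      _ ≤ C3 * (Nat.totient d) * (q : ℝ) ^ (-(ε / 2)) + (C1 + C2) *
          (C4 * Nat.totient d * (q : ℝ) ^ (-(δ / 2))) := by gcongr
      _ = _ := by ring
  have : (Nat.totient d : ℝ) * ((C1 + C2) * C4 * (q : ℝ) ^ (-(δ / 2)) +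
      C3 * (q : ℝ) ^ (-(ε / 2))) < Nat.totient d * 1 := by
    gcongr
  linarith

end Pool.Agent.W19.CY
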